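import Mathlib

/-!
The squeezing function of the Thullen domain `{|z|² + |w|⁴ < 1}` tends to `1` along a (tangential)
sequence converging to the weakly pseudoconvex boundary point `(1, 0)`.
-/

set_option autoImplicit false

open scoped ContDiff Topology
open Complex Filter

namespace Pool.Agent.Results.MP_63facb_an.EggSqueezing

/-- `ℂⁿ` with its Hermitian norm. -/
abbrev Cn (n : ℕ) : Type := EuclideanSpace ℂ (Fin n)

/-- `F` restricted to the open set `D` is a holomorphic embedding: holomorphic, an immersion, and a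
homeomorphism onto its image. -/
structure IsHolomorphicEmbedding {n : ℕ} (F : Cn n → Cn n) (D : Set (Cn n)) : Prop where
  holomorphic : DifferentiableOn ℂ F D
  immersion : ∀ x ∈ D, Function.Injective (fderiv ℂ F x)
  embedding : Topology.IsEmbedding (D.domRestrict F)

/-- The squeezing function `s_D(z)`: the supremum of the radii `r > 0` such that
`B(0,r) ⊆ F(D)` for some holomorphic embedding `F : D → B(0,1)` with `F(z) = 0`. -/
noncomputable def squeezing {n : ℕ} (D : Set (Cn n)) (z : Cn n) : ℝ :=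
  sSup {r : ℝ | 0 < r ∧ ∃ F : Cn n → Cn n, IsHolomorphicEmbedding F D ∧
    Set.MapsTo F D (Metric.ball 0 1) ∧ F z = 0 ∧ Metric.ball 0 r ⊆ F '' D}

/-- `ρ` is a smooth defining function of `D` on the open neighbourhood `U` of `p`:
`ρ ∈ C^∞(U)`, `dρ ≠ 0` on `U` and `D ∩ U = {ρ < 0}`. -/
structure IsLocalDefiningFunction {n : ℕ} (D : Set (Cn n)) (p : Cn n) (U : Set (Cn n))
    (ρ : Cn n → ℝ) : Prop where
  isOpen : IsOpen U
  mem : p ∈ U
  smooth : ContDiffOn ℝ ∞ ρ U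
  regular : ∀ x ∈ U, fderiv ℝ ρ x ≠ 0
  inter : D ∩ U = {x | x ∈ U ∧ ρ x < 0}

/-- `v` is a complex tangent vector at `q` of the level set of `ρ`: `dρ(v) = dρ(iv) = 0`. -/
def IsComplexTangent {n : ℕ} (ρ : Cn n → ℝ) (q v : Cn n) : Prop :=
  fderiv ℝ ρ q v = 0 ∧ fderiv ℝ ρ q (I • v) = 0

/-- The Levi form of `ρ` at `q` in direction `v`, i.e. `∑ ρ_{j k̄}(q) v_j v̄_k`, written as
`∂²/∂ζ∂ζ̄ ρ(q + ζ v)` at `ζ = 0`, that is as a quarter of the Laplacian of `ζ ↦ ρ(q + ζ v)`. -/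
noncomputable def leviForm {n : ℕ} (ρ : Cn n → ℝ) (q v : Cn n) : ℝ :=
  (deriv (deriv fun t : ℝ => ρ (q + (t : ℂ) • v)) 0
    + deriv (deriv fun t : ℝ => ρ (q + ((t : ℂ) * I) • v)) 0) / 4

/-- `∂D` is smooth and Levi pseudoconvex near the boundary point `p`. -/
def IsLeviPseudoconvexNear {n : ℕ} (D : Set (Cn n)) (p : Cn n) : Prop :=
  ∃ U ρ, IsLocalDefiningFunction D p U ρ ∧
    ∀ q ∈ frontier D ∩ U, ∀ v, IsComplexTangent ρ q v → 0 ≤ leviForm ρ q v

/-- `∂D` is smooth and strongly (Levi) pseudoconvex at the boundary point `p`. -/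
def IsStronglyPseudoconvexAt {n : ℕ} (D : Set (Cn n)) (p : Cn n) : Prop :=
  ∃ U ρ, IsLocalDefiningFunction D p U ρ ∧
    ∀ v, v ≠ 0 → IsComplexTangent ρ p v → 0 < leviForm ρ p v

/-- The Levi form of `∂D` at `p` has at least `k` positive eigenvalues. -/
def HasPositiveLeviEigenvalues {n : ℕ} (D : Set (Cn n)) (p : Cn n) (k : ℕ) : Prop :=
  ∃ U ρ, IsLocalDefiningFunction D p U ρ ∧ ∃ V : Submodule ℂ (Cn n),
    Module.finrank ℂ V = k ∧ ∀ v ∈ V, v ≠ 0 → IsComplexTangent ρ p v ∧ 0 < leviForm ρ p v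

/-- `∂D` is smooth near `p` and `p` is a point of finite D'Angelo type: there is `M` such that
`ν(ρ ∘ γ) ≤ M ν(γ - p)` for every nonconstant germ `γ` of a holomorphic curve with `γ(0) = p`
(here `ν` is the order of vanishing at `0`; the inequality is expressed as:
if `ν(γ - p) ≤ m` and `ρ ∘ γ = O(|ζ|^k)`, then `k ≤ M m`). -/
def IsFiniteType {n : ℕ} (D : Set (Cn n)) (p : Cn n) : Prop :=
  ∃ U ρ, IsLocalDefiningFunction D p U ρ ∧ ∃ M : ℕ, ∀ γ : ℂ → Cn n, AnalyticAt ℂ γ 0 → γ 0 = p →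
    ∀ m k : ℕ, ¬ ((fun ζ => γ ζ - p) =O[𝓝 0] fun ζ => ζ ^ (m + 1)) →
      ((fun ζ => ρ (γ ζ)) =O[𝓝 0] fun ζ => ζ ^ k) → k ≤ M * m

/-- `D` is a bounded domain and `p` is one of its boundary points. -/
structure IsBoundedDomainWithBoundaryPoint {n : ℕ} (D : Set (Cn n)) (p : Cn n) : Prop where
  isOpen : IsOpen D
  isConnected : IsConnected D
  isBounded : Bornology.IsBounded D
  mem_frontier : p ∈ frontier D

/-- Case (A): `n = 2`, `∂D` is smooth and Levi pseudoconvex near `p`, `p` is of finite type. -/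
def CaseA {n : ℕ} (D : Set (Cn n)) (p : Cn n) : Prop :=
  n = 2 ∧ IsLeviPseudoconvexNear D p ∧ IsFiniteType D p

/-- Case (B): `n ≥ 2`, `∂D` is smooth, Levi pseudoconvex and of finite type near `p`, and the Levi
form at `p` has at least `n - 2` positive eigenvalues. -/
def CaseB {n : ℕ} (D : Set (Cn n)) (p : Cn n) : Prop :=
  2 ≤ n ∧ IsLeviPseudoconvexNear D p ∧ (∀ᶠ q in 𝓝 p, q ∈ frontier D → IsFiniteType D q) ∧
    HasPositiveLeviEigenvalues D p (n - 2)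

/-- Case (C): `n ≥ 2`, `D` is convex and `∂D` is smooth and of finite type near `p`. -/
def CaseC {n : ℕ} (D : Set (Cn n)) (p : Cn n) : Prop :=
  2 ≤ n ∧ Convex ℝ D ∧ ∀ᶠ q in 𝓝 p, q ∈ frontier D → IsFiniteType D q

/-- The admissible pairs of the problem. -/
def IsAdmissible {n : ℕ} (D : Set (Cn n)) (p : Cn n) : Prop :=
  IsBoundedDomainWithBoundaryPoint D p ∧ (CaseA D p ∨ CaseB D p ∨ CaseC D p)

/-- The Thullen domain (egg) `{|z|² + |w|⁴ < 1}`. -/
def egg : Set (Cn 2) := {x | ‖x 0‖ ^ 2 + ‖x 1‖ ^ 4 < 1}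

/-- Its defining function. -/
noncomputable def rho (x : Cn 2) : ℝ := ‖x 0‖ ^ 2 + ‖x 1‖ ^ 4 - 1

lemma mem_egg {x : Cn 2} : x ∈ egg ↔ ‖x 0‖ ^ 2 + ‖x 1‖ ^ 4 < 1 := Iff.rfl

lemma mem_egg' {x : Cn 2} : x ∈ egg ↔ rho x < 0 := by
  rw [mem_egg, rho, sub_neg]

lemma egg_eq : egg = {x | rho x < 0} := by
  ext x; exact mem_egg'

lemma continuous_rho : Continuous rho := by
  unfold rho; fun_prop

lemma isOpen_egg : IsOpen egg := by
  rw [egg_eq]
  exact isOpen_lt continuous_rho continuous_const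

lemma contDiff_rho : ContDiff ℝ ∞ rho := by
  have h : rho = fun x : Cn 2 => ‖x 0‖ ^ 2 + (‖x 1‖ ^ 2) ^ 2 - 1 := by
    funext x; unfold rho; ring
  rw [h]
  have h0 : ∀ i : Fin 2, ContDiff ℝ ∞ fun x : Cn 2 => ‖x i‖ ^ 2 := fun i =>
    ContDiff.norm_sq ℝ ((EuclideanSpace.proj (𝕜 := ℂ) i : Cn 2 →L[ℂ] ℂ).restrictScalars ℝ).contDiff
  exact ((h0 0).add ((h0 1).pow 2)).sub contDiff_const

lemma differentiable_rho : Differentiable ℝ rho := contDiff_rho.differentiable (by simp)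

lemma convex_egg : Convex ℝ egg := by
  have h0 : ∀ i : Fin 2, ConvexOn ℝ Set.univ fun x : Cn 2 => ‖x i‖ := fun i =>
    (convexOn_univ_norm (E := ℂ)).comp_linearMap
      ((EuclideanSpace.proj (𝕜 := ℂ) i : Cn 2 →L[ℂ] ℂ).restrictScalars ℝ).toLinearMap
  have h1 : ConvexOn ℝ Set.univ fun x : Cn 2 => ‖x 0‖ ^ 2 + ‖x 1‖ ^ 4 :=
    ((h0 0).pow (fun x _ => norm_nonneg _) 2).add ((h0 1).pow (fun x _ => norm_nonneg _) 4)
  have h2 := h1.convex_lt 1
  simpa [egg] using h2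

lemma norm_lt_two_of_mem_egg {x : Cn 2} (hx : x ∈ egg) : ‖x‖ < 2 := by
  rw [mem_egg] at hx
  have h0 : 0 ≤ ‖x 0‖ ^ 2 := by positivity
  have h1 : 0 ≤ ‖x 1‖ ^ 4 := by positivity
  have h2 : ‖x 1‖ ^ 2 ≤ 1 := by nlinarith [sq_nonneg (‖x 1‖ ^ 2 - 1), sq_nonneg (‖x 1‖ ^ 2)]
  have h3 : ‖x‖ ^ 2 < 2 ^ 2 := by
    rw [EuclideanSpace.norm_sq_eq, Fin.sum_univ_two]
    nlinarith
  exact lt_of_pow_lt_pow_left₀ 2 (by norm_num) h3

lemma isBounded_egg : Bornology.IsBounded egg :=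
  (Metric.isBounded_ball (x := (0 : Cn 2)) (r := 2)).subset fun x hx => by
    simpa using norm_lt_two_of_mem_egg hx

/-- The weakly pseudoconvex boundary point `(1, 0)`. -/
noncomputable def pt : Cn 2 := !₂[1, 0]

lemma zero_mem_egg : (0 : Cn 2) ∈ egg := by
  rw [mem_egg]; norm_num

lemma rho_pt : rho pt = 0 := by
  simp [rho, pt]

lemma rho_of_mem_frontier {q : Cn 2} (hq : q ∈ frontier egg) : rho q = 0 := by
  rw [egg_eq] at hq
  exact frontier_lt_subset_eq continuous_rho continuous_const hq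

lemma pt_mem_frontier : pt ∈ frontier egg := by
  rw [isOpen_egg.frontier_eq]
  refine ⟨?_, ?_⟩
  · have h1 : Tendsto (fun t : ℝ => (t : ℂ) • pt) (𝓝[<] 1) (𝓝 (((1 : ℝ) : ℂ) • pt)) := by
      apply Tendsto.mono_left _ nhdsWithin_le_nhds
      have : Continuous fun t : ℝ => (t : ℂ) • pt := by fun_prop
      exact this.tendsto 1
    rw [ofReal_one, one_smul] at h1
    refine mem_closure_of_tendsto h1 ?_
    filter_upwards [Ioo_mem_nhdsLT (show (0 : ℝ) < 1 by norm_num)] with t ht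
    rw [mem_egg]
    simp only [pt, PiLp.smul_apply, smul_eq_mul, norm_mul]
    simp only [norm_real, Real.norm_eq_abs]
    simp
    exact abs_lt.2 ⟨by linarith [ht.1], ht.2⟩
  · rw [mem_egg', rho_pt]; simp

lemma fderiv_rho_self (x : Cn 2) : fderiv ℝ rho x x = 2 * ‖x 0‖ ^ 2 + 4 * ‖x 1‖ ^ 4 := by
  have h1 : HasDerivAt (fun t : ℝ => rho (x + t • x)) (fderiv ℝ rho x x) 0 := by
    have hline : HasDerivAt (fun t : ℝ => x + t • x) x 0 := by
      simpa using ((hasDerivAt_id (0 : ℝ)).smul_const x).const_add x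
    have hf : HasFDerivAt rho (fderiv ℝ rho x) (x + (0 : ℝ) • x) := by
      simpa using (differentiable_rho x).hasFDerivAt
    exact hf.comp_hasDerivAt (0 : ℝ) hline
  have h2 : HasDerivAt (fun t : ℝ => rho (x + t • x)) (2 * ‖x 0‖ ^ 2 + 4 * ‖x 1‖ ^ 4) 0 := by
    have e : (fun t : ℝ => rho (x + t • x))
        = fun t : ℝ => (1 + t) ^ 2 * ‖x 0‖ ^ 2 + (1 + t) ^ 4 * ‖x 1‖ ^ 4 - 1 := by
      funext t
      have hx : ∀ i, ‖(x + t • x) i‖ = |1 + t| * ‖x i‖ := by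
        intro i
        have : (x + t • x) i = ((1 + t : ℝ) : ℂ) * x i := by
          simp [add_mul]
        rw [this, norm_mul, norm_real, Real.norm_eq_abs]
      simp only [rho, hx, mul_pow]
      rw [sq_abs, show |1 + t| ^ 4 = (1 + t) ^ 4 from by
        rw [show (4 : ℕ) = 2 * 2 from rfl, pow_mul, sq_abs, ← pow_mul]]
    rw [e]
    have hb : HasDerivAt (fun t : ℝ => 1 + t) 1 0 := by
      simpa using (hasDerivAt_id (0 : ℝ)).const_add 1
    have h2' := ((hb.pow 2).mul_const (‖x 0‖ ^ 2)).add ((hb.pow 4).mul_const (‖x 1‖ ^ 4))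
    have h3 := h2'.sub_const (1 : ℝ)
    simpa using h3
  exact h1.unique h2

lemma fderiv_rho_ne_zero {x : Cn 2} (hx : x ≠ 0) : fderiv ℝ rho x ≠ 0 := by
  intro h
  have h1 := fderiv_rho_self x
  rw [h] at h1
  have h2 : (0 : ℝ) = 2 * ‖x 0‖ ^ 2 + 4 * ‖x 1‖ ^ 4 := by simpa using h1
  have h3 : 0 ≤ ‖x 0‖ ^ 2 := by positivity
  have h4 : 0 ≤ ‖x 1‖ ^ 4 := by positivity
  have h5 : ‖x 0‖ ^ 2 = 0 := by linarith
  have h6 : ‖x 1‖ ^ 4 = 0 := by linarith
  apply hx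
  ext i
  fin_cases i
  · simpa using h5
  · simpa using h6

lemma isLocalDefiningFunction_rho {q : Cn 2} (hq : q ≠ 0) :
    IsLocalDefiningFunction egg q {x | x ≠ 0} rho where
  isOpen := isOpen_ne
  mem := hq
  smooth := contDiff_rho.contDiffOn
  regular := fun x hx => fderiv_rho_ne_zero hx
  inter := by
    ext x
    simp only [Set.mem_inter_iff, mem_egg']
    exact and_comm

lemma ne_zero_of_mem_frontier {q : Cn 2} (hq : q ∈ frontier egg) : q ≠ 0 := by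
  rintro rfl
  have := rho_of_mem_frontier hq
  simp [rho] at this

/-- second derivative of a quartic polynomial at `0` -/
lemma deriv_deriv_quartic (c0 c1 c2 c3 c4 : ℝ) :
    deriv (deriv fun t : ℝ => c0 + c1 * t + c2 * t ^ 2 + c3 * t ^ 3 + c4 * t ^ 4) 0 = 2 * c2 := by
  have h1 : ∀ t : ℝ, HasDerivAt (fun t : ℝ => c0 + c1 * t + c2 * t ^ 2 + c3 * t ^ 3 + c4 * t ^ 4)
      (c1 + 2 * c2 * t + 3 * c3 * t ^ 2 + 4 * c4 * t ^ 3) t := by
    intro t
    have h := (((((hasDerivAt_id t).const_mul c1).const_add c0).add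
      (((hasDerivAt_id t).pow 2).const_mul c2)).add
      (((hasDerivAt_id t).pow 3).const_mul c3)).add (((hasDerivAt_id t).pow 4).const_mul c4)
    refine h.congr_deriv ?_
    simp
    ring
  have h2 : (deriv fun t : ℝ => c0 + c1 * t + c2 * t ^ 2 + c3 * t ^ 3 + c4 * t ^ 4)
      = fun t => c1 + 2 * c2 * t + 3 * c3 * t ^ 2 + 4 * c4 * t ^ 3 := by
    funext t; exact (h1 t).deriv
  rw [h2]
  have h3 : HasDerivAt (fun t : ℝ => c1 + 2 * c2 * t + 3 * c3 * t ^ 2 + 4 * c4 * t ^ 3)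
      (2 * c2) 0 := by
    have h := ((((hasDerivAt_id (0 : ℝ)).const_mul (2 * c2)).const_add c1).add
      (((hasDerivAt_id (0 : ℝ)).pow 2).const_mul (3 * c3))).add
      (((hasDerivAt_id (0 : ℝ)).pow 3).const_mul (4 * c4))
    refine h.congr_deriv ?_
    simp
  exact h3.deriv

lemma normSq_add_mul (a b : ℂ) (t : ℝ) :
    ‖a + (t : ℂ) * b‖ ^ 2 = ‖a‖ ^ 2 + 2 * (a.re * b.re + a.im * b.im) * t + ‖b‖ ^ 2 * t ^ 2 := by
  rw [← Complex.normSq_eq_norm_sq, ← Complex.normSq_eq_norm_sq, ← Complex.normSq_eq_norm_sq,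
    Complex.normSq_apply, Complex.normSq_apply, Complex.normSq_apply]
  simp
  ring

lemma rho_line (q v : Cn 2) (t : ℝ) :
    rho (q + (t : ℂ) • v) = (‖q 0‖ ^ 2 + ‖q 1‖ ^ 4 - 1)
      + (2 * ((q 0).re * (v 0).re + (q 0).im * (v 0).im)
        + 4 * ‖q 1‖ ^ 2 * ((q 1).re * (v 1).re + (q 1).im * (v 1).im)) * t
      + (‖v 0‖ ^ 2 + 4 * ((q 1).re * (v 1).re + (q 1).im * (v 1).im) ^ 2
        + 2 * ‖q 1‖ ^ 2 * ‖v 1‖ ^ 2) * t ^ 2
      + (4 * ((q 1).re * (v 1).re + (q 1).im * (v 1).im) * ‖v 1‖ ^ 2) * t ^ 3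
      + ‖v 1‖ ^ 4 * t ^ 4 := by
  have h : rho (q + (t : ℂ) • v)
      = ‖q 0 + (t : ℂ) * v 0‖ ^ 2 + (‖q 1 + (t : ℂ) * v 1‖ ^ 2) ^ 2 - 1 := by
    simp [rho]
    ring
  rw [h, normSq_add_mul, normSq_add_mul]
  ring

lemma leviForm_rho (q v : Cn 2) :
    leviForm rho q v = ‖v 0‖ ^ 2 + 4 * ‖q 1‖ ^ 2 * ‖v 1‖ ^ 2 := by
  have h2 : ∀ t : ℝ, q + ((t : ℂ) * I) • v = q + (t : ℂ) • (I • v) := by
    intro t; rw [smul_smul]
  unfold leviForm
  simp only [h2, rho_line, deriv_deriv_quartic]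
  simp only [PiLp.smul_apply, smul_eq_mul, norm_mul, norm_I, one_mul, mul_re, mul_im, I_re, I_im]
  have e : ‖q 1‖ ^ 2 * ‖v 1‖ ^ 2 = ((q 1).re ^ 2 + (q 1).im ^ 2) * ((v 1).re ^ 2 + (v 1).im ^ 2) := by
    rw [← Complex.normSq_eq_norm_sq, ← Complex.normSq_eq_norm_sq, Complex.normSq_apply,
      Complex.normSq_apply]
    ring
  nlinarith [e]

lemma isLeviPseudoconvexNear_egg {q : Cn 2} (hq : q ≠ 0) : IsLeviPseudoconvexNear egg q :=
  ⟨_, rho, isLocalDefiningFunction_rho hq, fun q' _ v _ => by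
    rw [leviForm_rho]; positivity⟩


/-- The second basis vector. -/
noncomputable def e2 : Cn 2 := !₂[0, 1]

/-- The first basis vector. -/
noncomputable def e1 : Cn 2 := !₂[1, 0]

lemma curve_mem_egg {c : ℂ} (hc : ‖c‖ = 1) {t : ℝ} (ht : t ≠ 0) (ht1 : |t| < 1) :
    pt + (t : ℂ) • (c • e2) - ((t : ℂ) ^ 4) • e1 ∈ egg := by
  rw [mem_egg]
  have h0 : ‖(pt + (t : ℂ) • (c • e2) - ((t : ℂ) ^ 4) • e1) 0‖ ^ 2 = (1 - t ^ 4) ^ 2 := by
    have : (pt + (t : ℂ) • (c • e2) - ((t : ℂ) ^ 4) • e1) 0 = ((1 - t ^ 4 : ℝ) : ℂ) := by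
      simp [pt, e2, e1]
    rw [this, norm_real, Real.norm_eq_abs, sq_abs]
  have h1 : ‖(pt + (t : ℂ) • (c • e2) - ((t : ℂ) ^ 4) • e1) 1‖ ^ 4 = t ^ 4 := by
    have : (pt + (t : ℂ) • (c • e2) - ((t : ℂ) ^ 4) • e1) 1 = (t : ℂ) * c := by
      simp [pt, e2, e1]
    rw [this, norm_mul, hc, norm_real, Real.norm_eq_abs, mul_one,
      show |t| ^ 4 = t ^ 4 from by rw [show (4 : ℕ) = 2 * 2 from rfl, pow_mul, sq_abs, ← pow_mul]]
  rw [h0, h1]
  have h2 : t ^ 2 < 1 := (sq_lt_one_iff_abs_lt_one t).2 ht1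
  have h3 : 0 < t ^ 2 := by positivity
  have h4 : t ^ 4 < 1 := by nlinarith
  have h5 : 0 < t ^ 4 := by positivity
  nlinarith

lemma not_isStronglyPseudoconvexAt_pt : ¬ IsStronglyPseudoconvexAt egg pt := by
  rintro ⟨U, ρ, hρ, hpos⟩
  have hU : U ∈ 𝓝 pt := hρ.isOpen.mem_nhds hρ.mem
  have hsm : ContDiffAt ℝ ∞ ρ pt := hρ.smooth.contDiffAt hU
  have hdiff : DifferentiableAt ℝ ρ pt := hsm.differentiableAt (by simp)
  have hlt : ∀ x ∈ U, x ∈ egg → ρ x < 0 := fun x hxU hx => by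
    have : x ∈ egg ∩ U := ⟨hx, hxU⟩
    rw [hρ.inter] at this
    exact this.2
  have hge : 0 ≤ ρ pt := by
    by_contra h
    push Not at h
    have : pt ∈ egg ∩ U := by
      rw [hρ.inter]; exact ⟨hρ.mem, h⟩
    have h2 := mem_egg'.1 this.1
    rw [rho_pt] at h2
    exact lt_irrefl _ h2
  obtain ⟨K, s, hs, hK⟩ := (hsm.of_le (m := 1) (by exact_mod_cast le_top)).exists_lipschitzOnWith
  have key : ∀ c : ℂ, ‖c‖ = 1 → fderiv ℝ ρ pt (c • e2) = 0 ∧
      deriv (deriv fun t : ℝ => ρ (pt + (t : ℂ) • (c • e2))) 0 ≤ 0 := by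
    intro c hc
    set ℓ : ℝ → ℝ := fun t => ρ (pt + (t : ℂ) • (c • e2)) with hℓ
    have hcont1 : Continuous fun t : ℝ => pt + (t : ℂ) • (c • e2) := by fun_prop
    have hcont2 : Continuous fun t : ℝ => pt + (t : ℂ) • (c • e2) - ((t : ℂ) ^ 4) • e1 := by
      fun_prop
    have hz1 : pt + ((0 : ℝ) : ℂ) • (c • e2) = pt := by simp
    have hz2 : pt + ((0 : ℝ) : ℂ) • (c • e2) - (((0 : ℝ) : ℂ) ^ 4) • e1 = pt := by simp
    have ev1 : ∀ᶠ t : ℝ in 𝓝 0, pt + (t : ℂ) • (c • e2) ∈ s := by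
      apply hcont1.continuousAt
      show s ∈ 𝓝 (pt + ((0 : ℝ) : ℂ) • (c • e2))
      rw [hz1]; exact hs
    have ev2 : ∀ᶠ t : ℝ in 𝓝 0, pt + (t : ℂ) • (c • e2) - ((t : ℂ) ^ 4) • e1 ∈ s ∩ U := by
      apply hcont2.continuousAt
      show s ∩ U ∈ 𝓝 (pt + ((0 : ℝ) : ℂ) • (c • e2) - (((0 : ℝ) : ℂ) ^ 4) • e1)
      rw [hz2]; exact inter_mem hs hU
    have ev3 : ∀ᶠ t : ℝ in 𝓝 0, |t| < 1 := by
      have : ContinuousAt (fun t : ℝ => |t|) 0 := continuous_abs.continuousAt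
      exact this.eventually_lt continuousAt_const (by simp)
    have hℓ0 : ℓ 0 = ρ pt := by simp [hℓ]
    -- upper bound for ρ pt
    have hle : ρ pt ≤ 0 := by
      have hc' : Tendsto (fun t : ℝ => ρ (pt + (t : ℂ) • (c • e2) - ((t : ℂ) ^ 4) • e1)) (𝓝[≠] 0)
          (𝓝 (ρ pt)) := by
        apply Tendsto.mono_left _ nhdsWithin_le_nhds
        have h1 : ContinuousAt ρ (pt + ((0 : ℝ) : ℂ) • (c • e2) - (((0 : ℝ) : ℂ) ^ 4) • e1) := by
          rw [hz2]; exact hdiff.continuousAt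
        have h2 := ContinuousAt.comp (f := fun t : ℝ => pt + (t : ℂ) • (c • e2)
          - ((t : ℂ) ^ 4) • e1) (x := (0 : ℝ)) h1 hcont2.continuousAt
        have h3 := h2.tendsto
        simp only [Function.comp_def] at h3
        rwa [hz2] at h3
      refine le_of_tendsto hc' ?_
      filter_upwards [nhdsWithin_le_nhds ev2, nhdsWithin_le_nhds ev3, self_mem_nhdsWithin]
        with t h2 h3 h4
      exact (hlt _ h2.2 (curve_mem_egg hc h4 h3)).le
    have hρ0 : ρ pt = 0 := le_antisymm hle hge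
    have hbound : ∀ᶠ t : ℝ in 𝓝 0, ℓ t ≤ K * t ^ 4 := by
      filter_upwards [ev1, ev2, ev3] with t h1 h2 h3
      rcases eq_or_ne t 0 with rfl | ht
      · rw [hℓ0, hρ0]; simp
      · have hg := hlt _ h2.2 (curve_mem_egg hc ht h3)
        have hl := hK.dist_le_mul _ h1 _ h2.1
        rw [Real.dist_eq, dist_eq_norm] at hl
        have hn : ‖pt + (t : ℂ) • (c • e2) - (pt + (t : ℂ) • (c • e2) - ((t : ℂ) ^ 4) • e1)‖
            = t ^ 4 := by
          rw [sub_sub_cancel, norm_smul, norm_pow, norm_real, Real.norm_eq_abs]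
          have : ‖e1‖ = 1 := by simp [e1, EuclideanSpace.norm_eq]
          rw [this, mul_one, show (4 : ℕ) = 2 * 2 from rfl, pow_mul, sq_abs, ← pow_mul]
        rw [hn] at hl
        have := le_abs_self (ρ (pt + (t : ℂ) • (c • e2))
          - ρ (pt + (t : ℂ) • (c • e2) - ((t : ℂ) ^ 4) • e1))
        show ρ (pt + (t : ℂ) • (c • e2)) ≤ _
        linarith
    -- smoothness of ℓ
    have hline : HasDerivAt (fun t : ℝ => pt + (t : ℂ) • (c • e2)) (c • e2) 0 := by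
      have h1 : HasDerivAt (fun t : ℝ => (t : ℂ)) 1 0 := Complex.ofRealCLM.hasDerivAt
      simpa using (h1.smul_const (c • e2)).const_add pt
    have hℓd : HasDerivAt ℓ (fderiv ℝ ρ pt (c • e2)) 0 := by
      have hf : HasFDerivAt ρ (fderiv ℝ ρ pt) (pt + ((0 : ℝ) : ℂ) • (c • e2)) := by
        rw [hz1]; exact hdiff.hasFDerivAt
      exact hf.comp_hasDerivAt (0 : ℝ) hline
    have hℓs : ContDiffAt ℝ ∞ ℓ 0 := by
      have h1 : ContDiffAt ℝ ∞ (fun t : ℝ => pt + (t : ℂ) • (c • e2)) 0 := by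
        apply ContDiff.contDiffAt
        exact contDiff_const.add (Complex.ofRealCLM.contDiff.smul contDiff_const)
      have h2 : ContDiffAt ℝ ∞ ρ ((fun t : ℝ => pt + (t : ℂ) • (c • e2)) 0) := by
        simp only [hz1]; exact hsm
      exact h2.comp (0 : ℝ) h1
    have hℓdiff : ∀ᶠ t : ℝ in 𝓝 0, DifferentiableAt ℝ ℓ t := by
      have h1 := (hℓs.of_le (m := 1) (by exact_mod_cast le_top)).eventually (by simp)
      filter_upwards [h1] with t ht using ht.differentiableAt (by simp)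
    -- first derivative vanishes
    have hd0 : fderiv ℝ ρ pt (c • e2) = 0 := by
      have hmax : IsLocalMax (fun t : ℝ => ℓ t - K * t ^ 4) 0 := by
        filter_upwards [hbound] with t ht
        simp only [hℓ0, hρ0]
        linarith [ht]
      have hd : HasDerivAt (fun t : ℝ => ℓ t - K * t ^ 4) (fderiv ℝ ρ pt (c • e2)) 0 := by
        have h1 := hℓd.sub (((hasDerivAt_id (0 : ℝ)).pow 4).const_mul (K : ℝ))
        refine h1.congr_deriv ?_
        simp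
      exact hmax.hasDerivAt_eq_zero hd
    refine ⟨hd0, ?_⟩
    by_contra hneg
    push Not at hneg
    set A := deriv (deriv ℓ) 0 with hA
    have hdd : DifferentiableAt ℝ (deriv ℓ) 0 := by
      by_contra h
      rw [hA, deriv_zero_of_not_differentiableAt h] at hneg
      exact lt_irrefl _ hneg
    have hm1 : deriv (fun t : ℝ => ℓ t - (A / 4) * t ^ 2) =ᶠ[𝓝 0]
        fun t => deriv ℓ t - (A / 4) * (2 * t) := by
      filter_upwards [hℓdiff] with t ht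
      have h1 := ht.hasDerivAt.sub (((hasDerivAt_id t).pow 2).const_mul (A / 4))
      exact (h1.deriv : deriv (fun t : ℝ => ℓ t - (A / 4) * t ^ 2) t = _).trans (by simp)
    have hm2 : deriv (deriv (fun t : ℝ => ℓ t - (A / 4) * t ^ 2)) 0 = A / 2 := by
      rw [hm1.deriv_eq]
      have h1 := hdd.hasDerivAt.sub (((hasDerivAt_id (0 : ℝ)).const_mul 2).const_mul (A / 4))
      exact (h1.deriv : deriv (fun t => deriv ℓ t - (A / 4) * (2 * t)) 0 = _).trans
        (by rw [← hA]; ring)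
    have hm3 : deriv (fun t : ℝ => ℓ t - (A / 4) * t ^ 2) 0 = 0 := by
      rw [hm1.eq_of_nhds]
      rw [hℓd.deriv, hd0]; simp
    have hmin := isLocalMin_of_deriv_deriv_pos (f := fun t : ℝ => ℓ t - (A / 4) * t ^ 2)
      (x₀ := 0) (by rw [hm2]; linarith) hm3 (by
        exact (hℓd.continuousAt).sub (by fun_prop))
    have hev : ∀ᶠ t : ℝ in 𝓝 0, (A / 4) * t ^ 2 ≤ K * t ^ 4 := by
      filter_upwards [hmin, hbound] with t h1 h2
      simp only [hℓ0, hρ0] at h1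
      linarith
    have hev2 : ∀ᶠ t : ℝ in 𝓝[≠] 0, (A / 4) ≤ K * t ^ 2 := by
      filter_upwards [nhdsWithin_le_nhds hev, self_mem_nhdsWithin] with t h1 h2
      have h3 : 0 < t ^ 2 := by
        have : t ≠ 0 := h2
        positivity
      have h4 : (A / 4) * t ^ 2 ≤ (K * t ^ 2) * t ^ 2 := by nlinarith
      exact le_of_mul_le_mul_right h4 h3
    have hlim : Tendsto (fun t : ℝ => K * t ^ 2) (𝓝[≠] 0) (𝓝 (K * 0 ^ 2)) := by
      apply Tendsto.mono_left _ nhdsWithin_le_nhds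
      have : Continuous fun t : ℝ => (K : ℝ) * t ^ 2 := by fun_prop
      exact this.tendsto 0
    have := ge_of_tendsto hlim hev2
    simp at this
    linarith
  obtain ⟨h1, h1'⟩ := key 1 (by simp)
  obtain ⟨h2, h2'⟩ := key I (by simp)
  rw [one_smul] at h1 h1'
  have hne : e2 ≠ 0 := by
    intro h
    have := congrArg (fun x : Cn 2 => x 1) h
    simp [e2] at this
  have h3 := hpos e2 hne ⟨h1, h2⟩
  unfold leviForm at h3
  simp only [mul_smul] at h3
  linarith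

/-- If `2 Re H + G = O(ζ^k)` with `H` holomorphic, `H(0) = 0`, and `G ≥ c|ζ|^j`, then `k ≤ j`:
average over small circles. -/
lemma le_of_average {H : ℂ → ℂ} {G f : ℂ → ℝ} {c : ℝ} {j k : ℕ} (hc : 0 < c)
    (h1 : ∀ᶠ ζ in 𝓝 (0 : ℂ), DifferentiableAt ℂ H ζ) (h0 : H 0 = 0)
    (h2 : ∀ᶠ ζ in 𝓝 (0 : ℂ), ContinuousAt G ζ)
    (h3 : ∀ᶠ ζ in 𝓝 (0 : ℂ), f ζ = 2 * (H ζ).re + G ζ)
    (h4 : ∀ᶠ ζ in 𝓝 (0 : ℂ), c * ‖ζ‖ ^ j ≤ G ζ)
    (h5 : f =O[𝓝 0] fun ζ : ℂ => ζ ^ k) : k ≤ j := by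
  by_contra hkj
  push Not at hkj
  obtain ⟨C, hC0, hC⟩ := h5.exists_pos
  rw [Asymptotics.isBigOWith_iff] at hC
  have hev := (h1.and (h2.and (h3.and (h4.and hC))))
  rw [Metric.eventually_nhds_iff] at hev
  obtain ⟨ε, hε, hev⟩ := hev
  have main : ∀ r : ℝ, 0 < r → r < ε → c * r ^ j ≤ C * r ^ k := by
    intro r hr hrε
    have hball : ∀ ζ ∈ Metric.closedBall (0 : ℂ) |r|, dist ζ 0 < ε := by
      intro ζ hζ
      rw [Metric.mem_closedBall, abs_of_pos hr] at hζ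
      exact lt_of_le_of_lt hζ hrε
    have hsph : ∀ ζ ∈ Metric.sphere (0 : ℂ) |r|, dist ζ 0 < ε := fun ζ hζ =>
      hball ζ (Metric.sphere_subset_closedBall hζ)
    have hHd : DiffContOnCl ℂ H (Metric.ball 0 |r|) := by
      apply DifferentiableOn.diffContOnCl
      intro ζ hζ
      have : ζ ∈ Metric.closedBall (0 : ℂ) |r| := Metric.closure_ball_subset_closedBall hζ
      exact (hev (hball ζ this)).1.differentiableWithinAt
    have hHavg : Real.circleAverage H 0 r = 0 := by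
      rw [hHd.circleAverage, h0]
    have hHint : CircleIntegrable H 0 r := by
      apply ContinuousOn.circleIntegrable'
      intro ζ hζ
      exact (hev (hsph ζ hζ)).1.continuousAt.continuousWithinAt
    have hGint : CircleIntegrable G 0 r := by
      apply ContinuousOn.circleIntegrable'
      intro ζ hζ
      exact (hev (hsph ζ hζ)).2.1.continuousWithinAt
    have hReint : CircleIntegrable (fun ζ => 2 * (H ζ).re) 0 r := by
      apply ContinuousOn.circleIntegrable'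
      intro ζ hζ
      have := (hev (hsph ζ hζ)).1.continuousAt
      exact (continuousAt_const.mul (Complex.continuous_re.continuousAt.comp this)).continuousWithinAt
    have hReavg : Real.circleAverage (fun ζ => 2 * (H ζ).re) 0 r = 0 := by
      have e1 := ContinuousLinearMap.circleAverage_comp_comm Complex.reCLM hHint
      have e2 : Real.circleAverage (fun ζ => (H ζ).re) 0 r = 0 := by
        have : (fun ζ => (H ζ).re) = Complex.reCLM ∘ H := rfl
        rw [this, e1, hHavg]; simp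
      have e3 := Real.circleAverage_fun_smul (a := (2 : ℝ)) (f := fun ζ => (H ζ).re)
        (c := (0 : ℂ)) (R := r)
      simp only [smul_eq_mul] at e3
      rw [e3, e2, mul_zero]
    have hfavg : Real.circleAverage f 0 r = Real.circleAverage G 0 r := by
      have e1 : Real.circleAverage f 0 r
          = Real.circleAverage (fun ζ => 2 * (H ζ).re + G ζ) 0 r := by
        apply Real.circleAverage_congr_sphere
        intro ζ hζ
        exact (hev (hsph ζ hζ)).2.2.1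
      rw [e1, Real.circleAverage_fun_add hReint hGint, hReavg, zero_add]
    have hfint : CircleIntegrable f 0 r := by
      have : CircleIntegrable (fun ζ => 2 * (H ζ).re + G ζ) 0 r := hReint.add hGint
      refine (circleIntegrable_congr ?_).1 this
      intro ζ hζ
      exact ((hev (hsph ζ hζ)).2.2.1).symm
    have hupper : Real.circleAverage f 0 r ≤ C * r ^ k := by
      apply Real.circleAverage_mono_on_of_le_circle hfint
      intro ζ hζ
      have h6 := (hev (hsph ζ hζ)).2.2.2.2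
      rw [Real.norm_eq_abs, norm_pow] at h6
      have h7 : ‖ζ‖ = r := by
        rw [mem_sphere_zero_iff_norm, abs_of_pos hr] at hζ; exact hζ
      rw [h7] at h6
      exact (le_abs_self _).trans h6
    have hlower : c * r ^ j ≤ Real.circleAverage G 0 r := by
      have e1 := Real.circleAverage_mono (c := (0 : ℂ)) (R := r) (f₁ := fun _ => c * r ^ j)
        (f₂ := G) (circleIntegrable_const _ _ _) hGint (by
          intro ζ hζ
          have h6 := (hev (hsph ζ hζ)).2.2.2.1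
          have h7 : ‖ζ‖ = r := by
            rw [mem_sphere_zero_iff_norm, abs_of_pos hr] at hζ; exact hζ
          rwa [h7] at h6)
      rwa [Real.circleAverage_const] at e1
    linarith [hfavg ▸ hupper]
  -- conclude
  have hlim : Tendsto (fun r : ℝ => C * r ^ (k - j)) (𝓝[>] 0) (𝓝 (C * 0 ^ (k - j))) := by
    apply Tendsto.mono_left _ nhdsWithin_le_nhds
    have : Continuous fun r : ℝ => C * r ^ (k - j) := by fun_prop
    exact this.tendsto 0
  have hge : ∀ᶠ r : ℝ in 𝓝[>] 0, c ≤ C * r ^ (k - j) := by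
    filter_upwards [Ioo_mem_nhdsGT hε] with r hr
    have h6 := main r hr.1 hr.2
    have h7 : r ^ k = r ^ (k - j) * r ^ j := by rw [← pow_add]; congr 1; omega
    rw [h7, ← mul_assoc] at h6
    exact le_of_mul_le_mul_right h6 (pow_pos hr.1 j)
  have := ge_of_tendsto hlim hge
  rw [zero_pow (by omega), mul_zero] at this
  linarith

/-- An analytic function which is not `O(ζ^(j+1))` is bounded below by `c |ζ|^j`. -/
lemma exists_lower_bound {g : ℂ → ℂ} (hg : AnalyticAt ℂ g 0) {j : ℕ}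
    (hj : ¬ (g =O[𝓝 0] fun ζ : ℂ => ζ ^ (j + 1))) :
    ∃ c : ℝ, 0 < c ∧ ∀ᶠ ζ in 𝓝 (0 : ℂ), c * ‖ζ‖ ^ j ≤ ‖g ζ‖ := by
  rcases eq_or_ne (analyticOrderAt g 0) ⊤ with h | h
  · exfalso
    apply hj
    rw [analyticOrderAt_eq_top] at h
    refine Asymptotics.IsBigO.congr' (Asymptotics.isBigO_zero _ _) ?_ EventuallyEq.rfl
    filter_upwards [h] with ζ hζ using hζ.symm
  · obtain ⟨n, hn⟩ := ENat.ne_top_iff_exists.1 h
    rw [eq_comm, hg.analyticOrderAt_eq_natCast] at hn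
    obtain ⟨u, hu, hu0, hev⟩ := hn
    have hnj : n ≤ j := by
      by_contra hlt
      push Not at hlt
      apply hj
      have h1 : u =O[𝓝 0] (fun _ => (1 : ℂ)) := hu.continuousAt.isBigO_one ℂ
      have h2 : (fun ζ : ℂ => ζ ^ n * u ζ) =O[𝓝 0] fun ζ : ℂ => ζ ^ (j + 1) * 1 := by
        apply Asymptotics.IsBigO.mul _ h1
        refine Asymptotics.IsBigO.of_bound 1 ?_
        filter_upwards [Metric.closedBall_mem_nhds (0 : ℂ) one_pos] with ζ hζ
        rw [norm_pow, norm_pow, one_mul]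
        have : ‖ζ‖ ≤ 1 := by simpa using hζ
        exact pow_le_pow_of_le_one (norm_nonneg _) this hlt
      refine (Asymptotics.IsBigO.congr' h2 ?_ ?_)
      · filter_upwards [hev] with ζ hζ
        rw [hζ, sub_zero, smul_eq_mul]
      · filter_upwards with ζ using by rw [mul_one]
    refine ⟨‖u 0‖ / 2, by positivity, ?_⟩
    have h3 : ∀ᶠ ζ in 𝓝 (0 : ℂ), ‖u 0‖ / 2 < ‖u ζ‖ := by
      apply (hu.continuousAt.norm).eventually_const_lt
      have : 0 < ‖u 0‖ := norm_pos_iff.2 hu0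
      linarith
    filter_upwards [h3, hev, Metric.closedBall_mem_nhds (0 : ℂ) one_pos] with ζ h4 h5 h6
    have h7 : ‖ζ‖ ≤ 1 := by simpa using h6
    rw [h5, sub_zero, norm_smul, norm_pow]
    have h8 : ‖ζ‖ ^ j ≤ ‖ζ‖ ^ n := pow_le_pow_of_le_one (norm_nonneg _) h7 hnj
    calc ‖u 0‖ / 2 * ‖ζ‖ ^ j ≤ ‖u ζ‖ * ‖ζ‖ ^ n := by
          apply mul_le_mul h4.le h8 (by positivity) (norm_nonneg _)
      _ = ‖ζ‖ ^ n * ‖u ζ‖ := mul_comm _ _

lemma isFiniteType_egg {q : Cn 2} (hq : q ∈ frontier egg) : IsFiniteType egg q := by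
  refine ⟨_, rho, isLocalDefiningFunction_rho (ne_zero_of_mem_frontier hq), 4, ?_⟩
  intro γ hγ hγ0 m k hm hk
  have hcoord : ∀ i : Fin 2, AnalyticAt ℂ (fun ζ => γ ζ i - q i) 0 := fun i =>
    (((EuclideanSpace.proj (𝕜 := ℂ) i : Cn 2 →L[ℂ] ℂ).analyticAt (γ 0)).comp hγ).sub
      analyticAt_const
  set α : ℂ → ℂ := fun ζ => γ ζ 0 - q 0 with hα
  set β : ℂ → ℂ := fun ζ => γ ζ 1 - q 1 with hβ
  have hαan : AnalyticAt ℂ α 0 := hcoord 0
  have hβan : AnalyticAt ℂ β 0 := hcoord 1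
  have hα0 : α 0 = 0 := by simp [hα, hγ0]
  have hβ0 : β 0 = 0 := by simp [hβ, hγ0]
  set β2 : ℂ → ℂ := fun ζ => β ζ * (2 * q 1 + β ζ) with hβ2
  have hβ2an : AnalyticAt ℂ β2 0 := hβan.mul (analyticAt_const.add hβan)
  have hβ20 : β2 0 = 0 := by simp [hβ2, hβ0]
  set H : ℂ → ℂ := fun ζ => (starRingEnd ℂ) (q 0) * α ζ + (starRingEnd ℂ) (q 1 ^ 2) * β2 ζ with hH
  have hHan : AnalyticAt ℂ H 0 := (analyticAt_const.mul hαan).add (analyticAt_const.mul hβ2an)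
  have hrq := rho_of_mem_frontier hq
  -- the decomposition of `ρ ∘ γ`
  have hdec : ∀ ζ, rho (γ ζ) = 2 * (H ζ).re + (‖α ζ‖ ^ 2 + ‖β2 ζ‖ ^ 2) := by
    intro ζ
    have e0 : γ ζ 0 = q 0 + α ζ := by simp [hα]
    have e1 : γ ζ 1 ^ 2 = q 1 ^ 2 + β2 ζ := by simp [hβ2, hβ]; ring
    have e2 : ‖γ ζ 1‖ ^ 4 = ‖γ ζ 1 ^ 2‖ ^ 2 := by rw [norm_pow]; ring
    have e3 : ‖q 1‖ ^ 4 = ‖q 1 ^ 2‖ ^ 2 := by rw [norm_pow]; ring
    rw [rho, e3] at hrq
    rw [rho, e2, e0, e1]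
    rw [← Complex.normSq_eq_norm_sq] at hrq ⊢
    rw [← Complex.normSq_eq_norm_sq] at hrq ⊢
    rw [← Complex.normSq_eq_norm_sq, ← Complex.normSq_eq_norm_sq]
    rw [Complex.normSq_add, Complex.normSq_add]
    have e4 : (q 0 * (starRingEnd ℂ) (α ζ)).re = ((starRingEnd ℂ) (q 0) * α ζ).re := by
      simp
    have e5 : (q 1 ^ 2 * (starRingEnd ℂ) (β2 ζ)).re = ((starRingEnd ℂ) (q 1 ^ 2) * β2 ζ).re := by
      simp only [mul_re, conj_re, conj_im]; ring
    rw [e4, e5]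
    simp only [hH, add_re]
    linarith
  -- lower bound for the positive part
  have hlow : ∃ c : ℝ, 0 < c ∧ ∀ᶠ ζ in 𝓝 (0 : ℂ), c * ‖ζ‖ ^ (4 * m) ≤ ‖α ζ‖ ^ 2 + ‖β2 ζ‖ ^ 2 := by
    have hone : ∀ᶠ ζ in 𝓝 (0 : ℂ), ‖ζ‖ ≤ 1 := by
      filter_upwards [Metric.closedBall_mem_nhds (0 : ℂ) one_pos] with ζ hζ
      simpa using hζ
    by_cases hαO : α =O[𝓝 0] fun ζ : ℂ => ζ ^ (m + 1)
    · have hβO : ¬ (β =O[𝓝 0] fun ζ : ℂ => ζ ^ (m + 1)) := by
        intro hβO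
        apply hm
        have h1 : (fun ζ => γ ζ - q) = fun ζ => α ζ • e1 + β ζ • e2 := by
          funext ζ
          ext i
          fin_cases i <;> simp [e1, e2, hα, hβ]
        rw [h1]
        have h2 : (fun ζ => α ζ • e1) =O[𝓝 0] fun ζ : ℂ => ζ ^ (m + 1) := by
          have := hαO.smul (Asymptotics.isBigO_refl (fun _ : ℂ => e1) (𝓝 0))
          refine this.trans (Asymptotics.IsBigO.of_bound ‖e1‖ ?_)
          filter_upwards with ζ
          rw [norm_smul, mul_comm]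
        have h3 : (fun ζ => β ζ • e2) =O[𝓝 0] fun ζ : ℂ => ζ ^ (m + 1) := by
          have := hβO.smul (Asymptotics.isBigO_refl (fun _ : ℂ => e2) (𝓝 0))
          refine this.trans (Asymptotics.IsBigO.of_bound ‖e2‖ ?_)
          filter_upwards with ζ
          rw [norm_smul, mul_comm]
        exact h2.add h3
      obtain ⟨c, hc, hcb⟩ := exists_lower_bound hβan hβO
      rcases eq_or_ne (q 1) 0 with hb | hb
      · refine ⟨c ^ 4, by positivity, ?_⟩
        filter_upwards [hcb] with ζ h1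
        have h2 : ‖β2 ζ‖ = ‖β ζ‖ ^ 2 := by
          simp only [hβ2, hb, mul_zero, zero_add, norm_mul]; ring
        have h3 : (c * ‖ζ‖ ^ m) ^ 4 ≤ ‖β ζ‖ ^ 4 := pow_le_pow_left₀ (by positivity) h1 4
        have h4 : (c * ‖ζ‖ ^ m) ^ 4 = c ^ 4 * ‖ζ‖ ^ (4 * m) := by
          rw [mul_pow, ← pow_mul, mul_comm m 4]
        rw [h2, ← h4]
        have h5 : 0 ≤ ‖α ζ‖ ^ 2 := by positivity
        calc (c * ‖ζ‖ ^ m) ^ 4 ≤ ‖β ζ‖ ^ 4 := h3
          _ = (‖β ζ‖ ^ 2) ^ 2 := by ring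
          _ ≤ _ := by linarith
      · have hpos : 0 < ‖q 1‖ := norm_pos_iff.2 hb
        refine ⟨(c * ‖q 1‖) ^ 2, by positivity, ?_⟩
        have h6 : ∀ᶠ ζ in 𝓝 (0 : ℂ), ‖q 1‖ < ‖2 * q 1 + β ζ‖ := by
          have hcont : ContinuousAt (fun ζ => ‖2 * q 1 + β ζ‖) 0 :=
            (continuousAt_const.add hβan.continuousAt).norm
          apply hcont.eventually_const_lt
          show ‖q 1‖ < ‖2 * q 1 + β 0‖
          rw [hβ0, add_zero, norm_mul]
          simp only [Complex.norm_ofNat]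
          linarith
        filter_upwards [hcb, h6, hone] with ζ h1 h2 h3
        have h4 : c * ‖ζ‖ ^ m * ‖q 1‖ ≤ ‖β2 ζ‖ := by
          rw [hβ2, norm_mul]
          exact mul_le_mul h1 h2.le hpos.le (norm_nonneg _)
        have h5 : (c * ‖ζ‖ ^ m * ‖q 1‖) ^ 2 ≤ ‖β2 ζ‖ ^ 2 := pow_le_pow_left₀ (by positivity) h4 2
        have h7 : ‖ζ‖ ^ (4 * m) ≤ ‖ζ‖ ^ (2 * m) :=
          pow_le_pow_of_le_one (norm_nonneg _) h3 (by omega)
        have h8 : 0 ≤ ‖α ζ‖ ^ 2 := by positivity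
        calc (c * ‖q 1‖) ^ 2 * ‖ζ‖ ^ (4 * m) ≤ (c * ‖q 1‖) ^ 2 * ‖ζ‖ ^ (2 * m) := by
              apply mul_le_mul_of_nonneg_left h7 (by positivity)
          _ = (c * ‖ζ‖ ^ m * ‖q 1‖) ^ 2 := by rw [mul_comm 2 m, pow_mul]; ring
          _ ≤ _ := by linarith
    · obtain ⟨c, hc, hcb⟩ := exists_lower_bound hαan hαO
      refine ⟨c ^ 2, by positivity, ?_⟩
      filter_upwards [hcb, hone] with ζ h1 h3
      have h5 : (c * ‖ζ‖ ^ m) ^ 2 ≤ ‖α ζ‖ ^ 2 := pow_le_pow_left₀ (by positivity) h1 2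
      have h7 : ‖ζ‖ ^ (4 * m) ≤ ‖ζ‖ ^ (2 * m) :=
        pow_le_pow_of_le_one (norm_nonneg _) h3 (by omega)
      have h8 : 0 ≤ ‖β2 ζ‖ ^ 2 := by positivity
      calc c ^ 2 * ‖ζ‖ ^ (4 * m) ≤ c ^ 2 * ‖ζ‖ ^ (2 * m) := by
            apply mul_le_mul_of_nonneg_left h7 (by positivity)
        _ = (c * ‖ζ‖ ^ m) ^ 2 := by rw [mul_comm 2 m, pow_mul]; ring
        _ ≤ _ := by linarith
  obtain ⟨c, hc, hcb⟩ := hlow
  refine le_of_average hc ?_ (?_ : H 0 = 0) ?_ (Eventually.of_forall hdec) hcb hk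
  · exact hHan.eventually_analyticAt.mono fun ζ h => h.differentiableAt
  · simp [hH, hα0, hβ20]
  · filter_upwards [hαan.eventually_analyticAt, hβ2an.eventually_analyticAt] with ζ h1 h2
    exact (h1.continuousAt.norm.pow 2).add (h2.continuousAt.norm.pow 2)

lemma hasPositiveLeviEigenvalues_zero {q : Cn 2} (hq : q ≠ 0) :
    HasPositiveLeviEigenvalues egg q 0 :=
  ⟨_, rho, isLocalDefiningFunction_rho hq, ⊥, by simp, fun v hv hv0 =>
    absurd ((Submodule.mem_bot ℂ).1 hv) hv0⟩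

/-! ### Automorphisms of the egg -/

/-- The factor `((1-s²)^{1/4}) (1-sz)^{-1/2}`. -/
noncomputable def fac (s : ℝ) (z : ℂ) : ℂ :=
  Complex.exp (Complex.log ((1 - s ^ 2 : ℝ) : ℂ) / 4 - Complex.log (1 - s * z) / 2)

/-- The automorphism `A_s` of the egg moving `(s, *)` to `(0, *)`. -/
noncomputable def aut (s : ℝ) (x : Cn 2) : Cn 2 :=
  !₂[(x 0 - s) / (1 - s * x 0), fac s (x 0) * x 1]

lemma re_one_sub_pos {s : ℝ} (hs : |s| < 1) {z : ℂ} (hz : ‖z‖ < 1) : 0 < (1 - (s : ℂ) * z).re := by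
  have h1 : ‖(s : ℂ) * z‖ < 1 := by
    rw [norm_mul, norm_real, Real.norm_eq_abs]
    have := mul_lt_mul'' hs hz (abs_nonneg _) (norm_nonneg _)
    simpa using this
  have h2 := (Complex.abs_re_le_norm ((s : ℂ) * z)).trans_lt h1
  have h3 := (abs_lt.1 h2).2
  simp only [sub_re, one_re]
  linarith

lemma one_sub_ne_zero {s : ℝ} (hs : |s| < 1) {z : ℂ} (hz : ‖z‖ < 1) : 1 - (s : ℂ) * z ≠ 0 := by
  intro h
  have := re_one_sub_pos hs hz
  rw [h] at this
  simp at this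

lemma one_sub_sq_pos {s : ℝ} (hs : |s| < 1) : 0 < 1 - s ^ 2 := by
  have := (sq_lt_one_iff_abs_lt_one s).2 hs
  linarith

lemma norm_lt_one_of_mem_egg {x : Cn 2} (hx : x ∈ egg) : ‖x 0‖ < 1 := by
  rw [mem_egg] at hx
  have : 0 ≤ ‖x 1‖ ^ 4 := by positivity
  have h2 : ‖x 0‖ ^ 2 < 1 := by linarith
  exact (sq_lt_one_iff₀ (norm_nonneg _)).1 h2

lemma norm_fac {s : ℝ} (hs : |s| < 1) {z : ℂ} (hz : ‖z‖ < 1) :
    ‖fac s z‖ ^ 4 = (1 - s ^ 2) / ‖1 - (s : ℂ) * z‖ ^ 2 := by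
  have h1 := one_sub_sq_pos hs
  have h2 := one_sub_ne_zero hs hz
  have h3 : 0 < ‖1 - (s : ℂ) * z‖ := norm_pos_iff.2 h2
  rw [fac, Complex.norm_exp, ← Real.exp_nat_mul]
  have e1 : ((4 : ℕ) : ℝ) * (Complex.log ((1 - s ^ 2 : ℝ) : ℂ) / 4
      - Complex.log (1 - s * z) / 2).re = Real.log (1 - s ^ 2) - 2 * Real.log ‖1 - (s : ℂ) * z‖ := by
    rw [← Complex.ofReal_log h1.le]
    have e2 : ((Real.log (1 - s ^ 2) : ℝ) : ℂ) / 4 = ((Real.log (1 - s ^ 2) / 4 : ℝ) : ℂ) := by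
      push_cast; ring
    have e3 : (Complex.log (1 - (s : ℂ) * z) / 2).re = Real.log ‖1 - (s : ℂ) * z‖ / 2 := by
      rw [show Complex.log (1 - (s : ℂ) * z) / 2 = ((1 / 2 : ℝ) : ℂ) * Complex.log (1 - (s : ℂ) * z)
        from by push_cast; ring, Complex.re_ofReal_mul, Complex.log_re]
      ring
    rw [e2, sub_re, ofReal_re, e3]
    push_cast; ring
  rw [e1, Real.exp_sub, Real.exp_log h1]
  congr 1
  rw [mul_comm, Real.exp_mul, Real.exp_log h3]
  norm_num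

lemma aut_zero (s : ℝ) (x : Cn 2) : aut s x 0 = (x 0 - s) / (1 - s * x 0) := by simp [aut]

lemma aut_one (s : ℝ) (x : Cn 2) : aut s x 1 = fac s (x 0) * x 1 := by simp [aut]

lemma norm_sq_mobius {s : ℝ} (hs : |s| < 1) {z : ℂ} (hz : ‖z‖ < 1) :
    1 - ‖(z - s) / (1 - s * z)‖ ^ 2 = (1 - s ^ 2) * (1 - ‖z‖ ^ 2) / ‖1 - (s : ℂ) * z‖ ^ 2 := by
  have h2 := one_sub_ne_zero hs hz
  have h3 : 0 < ‖1 - (s : ℂ) * z‖ ^ 2 := by have := norm_pos_iff.2 h2; positivity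
  rw [norm_div, div_pow, eq_div_iff h3.ne', sub_mul, one_mul, div_mul_cancel₀ _ h3.ne']
  rw [← Complex.normSq_eq_norm_sq, ← Complex.normSq_eq_norm_sq, ← Complex.normSq_eq_norm_sq,
    Complex.normSq_apply, Complex.normSq_apply, Complex.normSq_apply]
  simp
  ring

lemma rho_aut {s : ℝ} (hs : |s| < 1) {x : Cn 2} (hx : ‖x 0‖ < 1) :
    1 - (‖aut s x 0‖ ^ 2 + ‖aut s x 1‖ ^ 4)
      = (1 - s ^ 2) / ‖1 - (s : ℂ) * x 0‖ ^ 2 * (1 - (‖x 0‖ ^ 2 + ‖x 1‖ ^ 4)) := by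
  rw [aut_zero, aut_one, norm_mul, mul_pow, norm_fac hs hx, ← sub_sub, norm_sq_mobius hs hx]
  ring

lemma aut_mem_egg {s : ℝ} (hs : |s| < 1) {x : Cn 2} (hx : x ∈ egg) : aut s x ∈ egg := by
  have h1 := norm_lt_one_of_mem_egg hx
  rw [mem_egg] at hx ⊢
  have h2 := rho_aut hs h1
  have h3 := one_sub_sq_pos hs
  have h4 : 0 < ‖1 - (s : ℂ) * x 0‖ := norm_pos_iff.2 (one_sub_ne_zero hs h1)
  have h5 : 0 < (1 - s ^ 2) / ‖1 - (s : ℂ) * x 0‖ ^ 2 * (1 - (‖x 0‖ ^ 2 + ‖x 1‖ ^ 4)) := by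
    apply mul_pos (by positivity) (by linarith)
  linarith

lemma aut_aut {s : ℝ} (hs : |s| < 1) {x : Cn 2} (hx : ‖x 0‖ < 1) : aut (-s) (aut s x) = x := by
  have h2 := one_sub_ne_zero hs hx
  have h3 := one_sub_sq_pos hs
  have h3' : ((1 - s ^ 2 : ℝ) : ℂ) ≠ 0 := by exact_mod_cast h3.ne'
  have e1 : 1 - ((-s : ℝ) : ℂ) * ((x 0 - s) / (1 - s * x 0)) = ((1 - s ^ 2 : ℝ) : ℂ)
      * (1 - s * x 0)⁻¹ := by
    rw [eq_mul_inv_iff_mul_eq₀ h2, sub_mul, mul_assoc, div_mul_cancel₀ _ h2]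
    push_cast
    ring
  ext i
  fin_cases i
  · show aut (-s) (aut s x) 0 = x 0
    rw [aut_zero, aut_zero, e1, div_eq_iff (mul_ne_zero h3' (inv_ne_zero h2)), ← mul_assoc,
      eq_mul_inv_iff_mul_eq₀ h2, sub_mul, div_mul_cancel₀ _ h2]
    push_cast
    ring
  · show aut (-s) (aut s x) 1 = x 1
    rw [aut_one, aut_one, aut_zero, ← mul_assoc]
    have e2 : fac (-s) ((x 0 - s) / (1 - s * x 0)) * fac s (x 0) = 1 := by
      unfold fac
      rw [← Complex.exp_add, e1, Complex.log_ofReal_mul h3 (inv_ne_zero h2), Complex.log_inv]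
      · rw [show (1 - (-s) ^ 2 : ℝ) = 1 - s ^ 2 by ring, Complex.ofReal_log h3.le]
        ring_nf
        simp
      · intro h
        have h5 := re_one_sub_pos hs hx
        have h6 := (Complex.arg_eq_pi_iff.1 h).1
        linarith
    rw [e2, one_mul]

lemma differentiableOn_div {S : Set (Cn 2)} {f g : Cn 2 → ℂ} (hf : DifferentiableOn ℂ f S)
    (hg : DifferentiableOn ℂ g S) (h : ∀ x ∈ S, g x ≠ 0) :
    DifferentiableOn ℂ (fun x => f x / g x) S := by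
  simp only [div_eq_mul_inv]
  exact hf.mul (hg.inv h)

lemma differentiableOn_aut {s : ℝ} (hs : |s| < 1) : DifferentiableOn ℂ (aut s) {x | ‖x 0‖ < 1} := by
  rw [differentiableOn_euclidean]
  have hp : ∀ i : Fin 2, Differentiable ℂ fun x : Cn 2 => x i := fun i =>
    (EuclideanSpace.proj (𝕜 := ℂ) i : Cn 2 →L[ℂ] ℂ).differentiable
  have h1 : DifferentiableOn ℂ (fun x : Cn 2 => 1 - (s : ℂ) * x 0) {x | ‖x 0‖ < 1} :=
    (((hp 0).const_mul (s : ℂ)).const_sub 1).differentiableOn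
  intro i
  fin_cases i
  · show DifferentiableOn ℂ (fun x => aut s x 0) _
    simp only [aut_zero]
    have h0 : DifferentiableOn ℂ (fun x : Cn 2 => x 0 - (s : ℂ)) {x | ‖x 0‖ < 1} :=
      ((hp 0).sub_const _).differentiableOn
    have h2 : ∀ x ∈ {x : Cn 2 | ‖x 0‖ < 1}, 1 - (s : ℂ) * x 0 ≠ 0 :=
      fun x hx => one_sub_ne_zero hs hx
    exact differentiableOn_div h0 h1 h2
  · show DifferentiableOn ℂ (fun x => aut s x 1) _
    simp only [aut_one]
    have h3 : DifferentiableOn ℂ (fun x : Cn 2 => Complex.log (1 - (s : ℂ) * x 0))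
        {x | ‖x 0‖ < 1} := by
      refine h1.clog fun x hx => ?_
      rw [Complex.mem_slitPlane_iff]
      exact Or.inl (re_one_sub_pos hs hx)
    have h4 : DifferentiableOn ℂ (fun x : Cn 2 => fac s (x 0)) {x | ‖x 0‖ < 1} :=
      ((differentiableOn_div h3 (differentiableOn_const _) fun _ _ => two_ne_zero).const_sub _).cexp
    exact h4.mul (hp 1).differentiableOn

/-! ### The Cayley type maps -/

/-- The biholomorphism of the Siegel domain `{|z|² < 4 Re(1-w)}` onto the ball taking `(0,1-δ)`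
to `0`. -/
noncomputable def cay (δ : ℝ) (x : Cn 2) : Cn 2 :=
  !₂[(Real.sqrt δ : ℂ) * x 0 / (1 - x 1 + δ), (1 - x 1 - δ) / (1 - x 1 + δ)]

/-- Its inverse. -/
noncomputable def cayInv (δ : ℝ) (y : Cn 2) : Cn 2 :=
  !₂[2 * (Real.sqrt δ : ℂ) * y 0 / (1 - y 1), 1 - δ * (1 + y 1) / (1 - y 1)]

lemma cay_zero (δ : ℝ) (x : Cn 2) : cay δ x 0 = (Real.sqrt δ : ℂ) * x 0 / (1 - x 1 + δ) := by
  simp [cay]
lemma cay_one (δ : ℝ) (x : Cn 2) : cay δ x 1 = (1 - x 1 - δ) / (1 - x 1 + δ) := by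
  simp [cay]
lemma cayInv_zero (δ : ℝ) (y : Cn 2) :
    cayInv δ y 0 = 2 * (Real.sqrt δ : ℂ) * y 0 / (1 - y 1) := by simp [cayInv]
lemma cayInv_one (δ : ℝ) (y : Cn 2) : cayInv δ y 1 = 1 - δ * (1 + y 1) / (1 - y 1) := by
  simp [cayInv]

lemma norm_one_lt_one_of_mem_egg {x : Cn 2} (hx : x ∈ egg) : ‖x 1‖ < 1 := by
  rw [mem_egg] at hx
  have : 0 ≤ ‖x 0‖ ^ 2 := by positivity
  have h2 : ‖x 1‖ ^ 4 < 1 := by linarith
  exact (pow_lt_one_iff_of_nonneg (norm_nonneg _) (by norm_num)).1 h2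

lemma cay_denom_re_pos {δ : ℝ} (hδ : 0 < δ) {x : Cn 2} (hx : ‖x 1‖ < 1) :
    0 < (1 - x 1 + (δ : ℂ)).re := by
  have h2 := (abs_lt.1 ((Complex.abs_re_le_norm (x 1)).trans_lt hx)).2
  simp
  linarith

lemma cay_denom_ne_zero {δ : ℝ} (hδ : 0 < δ) {x : Cn 2} (hx : ‖x 1‖ < 1) :
    1 - x 1 + (δ : ℂ) ≠ 0 := by
  intro h
  have := cay_denom_re_pos hδ hx
  rw [h] at this
  simp at this

lemma cay_norm_sq {δ : ℝ} (hδ : 0 < δ) {x : Cn 2} (hx : ‖x 1‖ < 1) :
    ‖cay δ x‖ ^ 2 = 1 - δ * (4 * (1 - (x 1).re) - ‖x 0‖ ^ 2) / ‖1 - x 1 + (δ : ℂ)‖ ^ 2 := by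
  have h1 := cay_denom_ne_zero hδ hx
  have h2 : 0 < ‖1 - x 1 + (δ : ℂ)‖ ^ 2 := by have := norm_pos_iff.2 h1; positivity
  rw [EuclideanSpace.norm_sq_eq, Fin.sum_univ_two, cay_zero, cay_one, norm_div, norm_div, div_pow,
    div_pow, norm_mul, mul_pow, norm_real, Real.norm_eq_abs, sq_abs, Real.sq_sqrt hδ.le]
  rw [← add_div, div_eq_iff h2.ne', sub_mul, div_mul_cancel₀ _ h2.ne', one_mul]
  rw [← Complex.normSq_eq_norm_sq (1 - x 1 - (δ : ℂ)), ← Complex.normSq_eq_norm_sq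
    (1 - x 1 + (δ : ℂ)), Complex.normSq_apply, Complex.normSq_apply]
  simp
  ring

lemma four_mul_re {w : ℂ} (hw : ‖w‖ < 1) : 1 - ‖w‖ ^ 4 ≤ 4 * (1 - w.re) := by
  have h2 := (le_abs_self _).trans (Complex.abs_re_le_norm w)
  have h3 : 1 - ‖w‖ ^ 4 ≤ 4 * (1 - ‖w‖) := by
    have h4 : 0 ≤ (1 - ‖w‖) ^ 2 * (‖w‖ ^ 2 + 2 * ‖w‖ + 3) := by positivity
    nlinarith [h4]
  linarith

lemma cay_mem_ball {δ : ℝ} (hδ : 0 < δ) {x : Cn 2} (hx : x ∈ egg) :
    cay δ x ∈ Metric.ball (0 : Cn 2) 1 := by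
  have h1 := norm_one_lt_one_of_mem_egg hx
  have h2 := cay_norm_sq hδ h1
  have h3 := four_mul_re h1
  rw [mem_egg] at hx
  have h4 : 0 < ‖1 - x 1 + (δ : ℂ)‖ := norm_pos_iff.2 (cay_denom_ne_zero hδ h1)
  have h5 : 0 < δ * (4 * (1 - (x 1).re) - ‖x 0‖ ^ 2) / ‖1 - x 1 + (δ : ℂ)‖ ^ 2 := by
    apply div_pos (mul_pos hδ (by linarith)) (by positivity)
  rw [mem_ball_zero_iff]
  have h6 : ‖cay δ x‖ ^ 2 < 1 := by linarith
  exact (sq_lt_one_iff₀ (norm_nonneg _)).1 h6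

lemma one_sub_ne_of_norm_lt {w : ℂ} (hw : ‖w‖ < 1) : 1 - w ≠ 0 := by
  intro h
  have : w = 1 := (sub_eq_zero.1 h).symm
  rw [this] at hw
  simp at hw

lemma norm_coord_le (y : Cn 2) (i : Fin 2) : ‖y i‖ ≤ ‖y‖ := PiLp.norm_apply_le y i

lemma cayInv_cay {δ : ℝ} (hδ : 0 < δ) {x : Cn 2} (hx : ‖x 1‖ < 1) : cayInv δ (cay δ x) = x := by
  have h1 := cay_denom_ne_zero hδ hx
  have hδ' : (δ : ℂ) ≠ 0 := by exact_mod_cast hδ.ne'
  have hs : (Real.sqrt δ : ℂ) ^ 2 = (δ : ℂ) := by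
    rw [← ofReal_pow, Real.sq_sqrt hδ.le]
  have e1 : 1 - (1 - x 1 - (δ : ℂ)) / (1 - x 1 + δ) = 2 * δ / (1 - x 1 + δ) := by
    field_simp; ring
  ext i
  fin_cases i
  · show cayInv δ (cay δ x) 0 = x 0
    rw [cayInv_zero, cay_zero, cay_one, e1]
    field_simp
    rw [hs, mul_comm]
  · show cayInv δ (cay δ x) 1 = x 1
    rw [cayInv_one, cay_one, e1]
    field_simp
    ring

lemma cay_cayInv {δ : ℝ} (hδ : 0 < δ) {y : Cn 2} (hy : ‖y 1‖ < 1) : cay δ (cayInv δ y) = y := by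
  have h1 := one_sub_ne_of_norm_lt hy
  have hδ' : (δ : ℂ) ≠ 0 := by exact_mod_cast hδ.ne'
  have hs : (Real.sqrt δ : ℂ) ^ 2 = (δ : ℂ) := by
    rw [← ofReal_pow, Real.sq_sqrt hδ.le]
  have e1 : 1 - (1 - (δ : ℂ) * (1 + y 1) / (1 - y 1)) + δ = 2 * δ / (1 - y 1) := by
    field_simp; ring
  ext i
  fin_cases i
  · show cay δ (cayInv δ y) 0 = y 0
    rw [cay_zero, cayInv_zero, cayInv_one, e1]
    field_simp
    rw [hs, mul_comm]
  · show cay δ (cayInv δ y) 1 = y 1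
    rw [cay_one, cayInv_one, e1]
    field_simp
    ring

lemma differentiable_coord (i : Fin 2) : Differentiable ℂ fun x : Cn 2 => x i :=
  (EuclideanSpace.proj (𝕜 := ℂ) i : Cn 2 →L[ℂ] ℂ).differentiable

lemma differentiableOn_cay {δ : ℝ} (hδ : 0 < δ) : DifferentiableOn ℂ (cay δ) {x | ‖x 1‖ < 1} := by
  rw [differentiableOn_euclidean]
  have h1 : DifferentiableOn ℂ (fun x : Cn 2 => 1 - x 1 + (δ : ℂ)) {x | ‖x 1‖ < 1} :=
    (((differentiable_coord 1).const_sub 1).add_const _).differentiableOn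
  have h2 : ∀ x ∈ {x : Cn 2 | ‖x 1‖ < 1}, 1 - x 1 + (δ : ℂ) ≠ 0 :=
    fun x hx => cay_denom_ne_zero hδ hx
  intro i
  fin_cases i
  · show DifferentiableOn ℂ (fun x => cay δ x 0) _
    simp only [cay_zero]
    have h0 : DifferentiableOn ℂ (fun x : Cn 2 => (Real.sqrt δ : ℂ) * x 0) {x | ‖x 1‖ < 1} :=
      ((differentiable_coord 0).const_mul _).differentiableOn
    exact differentiableOn_div h0 h1 h2
  · show DifferentiableOn ℂ (fun x => cay δ x 1) _
    simp only [cay_one]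
    have h0 : DifferentiableOn ℂ (fun x : Cn 2 => 1 - x 1 - (δ : ℂ)) {x | ‖x 1‖ < 1} :=
      (((differentiable_coord 1).const_sub 1).sub_const _).differentiableOn
    exact differentiableOn_div h0 h1 h2

lemma differentiableOn_cayInv (δ : ℝ) :
    DifferentiableOn ℂ (cayInv δ) {y | ‖y 1‖ < 1} := by
  rw [differentiableOn_euclidean]
  have h1 : DifferentiableOn ℂ (fun x : Cn 2 => 1 - x 1) {x | ‖x 1‖ < 1} :=
    ((differentiable_coord 1).const_sub 1).differentiableOn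
  have h2 : ∀ x ∈ {x : Cn 2 | ‖x 1‖ < 1}, 1 - x 1 ≠ 0 :=
    fun x hx => one_sub_ne_of_norm_lt hx
  intro i
  fin_cases i
  · show DifferentiableOn ℂ (fun x => cayInv δ x 0) _
    simp only [cayInv_zero]
    have h0 : DifferentiableOn ℂ (fun x : Cn 2 => 2 * (Real.sqrt δ : ℂ) * x 0) {x | ‖x 1‖ < 1} :=
      ((differentiable_coord 0).const_mul _).differentiableOn
    exact differentiableOn_div h0 h1 h2
  · show DifferentiableOn ℂ (fun x => cayInv δ x 1) _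
    simp only [cayInv_one]
    have h0 : DifferentiableOn ℂ (fun x : Cn 2 => (δ : ℂ) * (1 + x 1)) {x | ‖x 1‖ < 1} :=
      (((differentiable_coord 1).const_add 1).const_mul _).differentiableOn
    exact (differentiableOn_div h0 h1 h2).const_sub 1

/-- A holomorphic map with a holomorphic left inverse is a holomorphic embedding. -/
lemma isHolomorphicEmbedding_of_leftInverse {n : ℕ} {D : Set (Cn n)} (hD : IsOpen D)
    {F G : Cn n → Cn n} (hF : DifferentiableOn ℂ F D) (hG : ∀ x ∈ D, DifferentiableAt ℂ G (F x))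
    (hGF : ∀ x ∈ D, G (F x) = x) : IsHolomorphicEmbedding F D where
  holomorphic := hF
  immersion := by
    intro x hx
    have h1 : DifferentiableAt ℂ F x := hF.differentiableAt (hD.mem_nhds hx)
    have h2 : HasFDerivAt (G ∘ F) ((fderiv ℂ G (F x)).comp (fderiv ℂ F x)) x :=
      (hG x hx).hasFDerivAt.comp x h1.hasFDerivAt
    have h3 : HasFDerivAt (G ∘ F) (ContinuousLinearMap.id ℂ (Cn n)) x := by
      refine (hasFDerivAt_id x).congr_of_eventuallyEq ?_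
      filter_upwards [hD.mem_nhds hx] with y hy
      exact hGF y hy
    have h4 := h2.unique h3
    intro u v huv
    have h5 : (fderiv ℂ G (F x)).comp (fderiv ℂ F x) u
        = (fderiv ℂ G (F x)).comp (fderiv ℂ F x) v := by
      simp [huv]
    rw [h4] at h5
    simpa using h5
  embedding := by
    have hinj : Function.Injective (D.domRestrict F) := by
      intro x y hxy
      have h1 : F x = F y := hxy
      have h2 := congrArg G h1
      rw [hGF x x.2, hGF y y.2] at h2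
      exact Subtype.ext h2
    refine ⟨?_, hinj⟩
    rw [Topology.isInducing_iff_nhds]
    intro x
    apply le_antisymm
    · have hc : Continuous (D.domRestrict F) := continuousOn_iff_continuous_domRestrict.1 hF.continuousOn
      exact hc.continuousAt.tendsto.le_comap
    · rw [nhds_subtype_eq_comap]
      rw [← Filter.tendsto_iff_comap]
      have h1 : Tendsto G (𝓝 (F x)) (𝓝 (x : Cn n)) := by
        have := (hG x x.2).continuousAt.tendsto
        rwa [hGF x x.2] at this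
      have h2 : Tendsto (fun y : D => G (F y)) (comap (D.domRestrict F) (𝓝 (D.domRestrict F x)))
          (𝓝 (x : Cn n)) := h1.comp tendsto_comap
      refine h2.congr fun y => ?_
      exact hGF y y.2

/-- The embeddings of the egg into the ball that we use. -/
noncomputable def emb (s δ : ℝ) (x : Cn 2) : Cn 2 := cay δ (aut s x)

/-- The preimages of `0`. -/
noncomputable def base (s δ : ℝ) : Cn 2 := aut (-s) !₂[0, ((1 - δ : ℝ) : ℂ)]

lemma isHolomorphicEmbedding_emb {s δ : ℝ} (hs : |s| < 1) (hδ : 0 < δ) :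
    IsHolomorphicEmbedding (emb s δ) egg := by
  refine isHolomorphicEmbedding_of_leftInverse (G := fun y => aut (-s) (cayInv δ y)) isOpen_egg
    ?_ ?_ ?_
  · refine (differentiableOn_cay hδ).comp ((differentiableOn_aut hs).mono fun x hx => ?_) ?_
    · exact norm_lt_one_of_mem_egg hx
    · intro x hx
      exact norm_one_lt_one_of_mem_egg (aut_mem_egg hs hx)
  · intro x hx
    have h1 := aut_mem_egg hs hx
    have h2 : emb s δ x ∈ Metric.ball (0 : Cn 2) 1 := cay_mem_ball hδ h1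
    have h3 : ‖(emb s δ x) 1‖ < 1 := (norm_coord_le _ _).trans_lt (mem_ball_zero_iff.1 h2)
    have h4 : DifferentiableAt ℂ (cayInv δ) (emb s δ x) := by
      refine (differentiableOn_cayInv δ).differentiableAt (IsOpen.mem_nhds ?_ h3)
      exact isOpen_lt (by fun_prop) continuous_const
    have h5 : cayInv δ (emb s δ x) = aut s x := cayInv_cay hδ (norm_one_lt_one_of_mem_egg h1)
    have h6 : DifferentiableAt ℂ (aut (-s)) (cayInv δ (emb s δ x)) := by
      rw [h5]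
      refine (differentiableOn_aut (by simpa using hs)).differentiableAt (IsOpen.mem_nhds ?_
        (norm_lt_one_of_mem_egg h1))
      exact isOpen_lt (by fun_prop) continuous_const
    exact h6.comp _ h4
  · intro x hx
    have h1 := aut_mem_egg hs hx
    show aut (-s) (cayInv δ (cay δ (aut s x))) = x
    rw [cayInv_cay hδ (norm_one_lt_one_of_mem_egg h1), aut_aut hs (norm_lt_one_of_mem_egg hx)]

lemma aut_aut' {s : ℝ} (hs : |s| < 1) {x : Cn 2} (hx : ‖x 0‖ < 1) : aut s (aut (-s) x) = x := by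
  have := aut_aut (s := -s) (by simpa using hs) hx
  rwa [neg_neg] at this

lemma emb_base {s δ : ℝ} (hs : |s| < 1) : emb s δ (base s δ) = 0 := by
  unfold emb base
  rw [aut_aut' hs (by simp)]
  ext i
  fin_cases i
  · show cay δ _ 0 = 0
    rw [cay_zero]; simp
  · show cay δ _ 1 = 0
    rw [cay_one]; simp

lemma base_mem_egg {s δ : ℝ} (hs : |s| < 1) (hδ : 0 < δ) (hδ1 : δ < 1) : base s δ ∈ egg := by
  refine aut_mem_egg (by simpa using hs) ?_
  rw [mem_egg]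
  simp only [Matrix.cons_val_zero, Matrix.cons_val_one, norm_zero, norm_real,
    Real.norm_eq_abs, ne_eq, OfNat.ofNat_ne_zero, not_false_eq_true, zero_pow, zero_add]
  rw [abs_of_pos (by linarith)]
  exact pow_lt_one₀ (by linarith) (by linarith) (by norm_num)

lemma cayInv_mem_egg {r δ : ℝ} (hr : r < 1) (hδ : 0 < δ) (hδ1 : δ ≤ 1)
    (hδr : δ * (2 + (2 * (2 / (1 - r)) + (2 / (1 - r)) ^ 2) ^ 2) < 1 - r ^ 2)
    {y : Cn 2} (hy : ‖y‖ < r) : cayInv δ y ∈ egg := by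
  have hr0 : 0 < r := (norm_nonneg _).trans_lt hy
  have hy1 : ‖y 1‖ < r := (norm_coord_le y 1).trans_lt hy
  have hb1 : ‖y 1‖ < 1 := hy1.trans hr
  have hne := one_sub_ne_of_norm_lt hb1
  have hynorm : ‖y 0‖ ^ 2 + ‖y 1‖ ^ 2 < r ^ 2 := by
    have h1 : ‖y‖ ^ 2 < r ^ 2 := pow_lt_pow_left₀ hy (norm_nonneg _) (by norm_num)
    rwa [EuclideanSpace.norm_sq_eq, Fin.sum_univ_two] at h1
  set a := y 0 with ha
  set b := y 1 with hb
  set c : ℂ := (1 + b) / (1 - b) with hc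
  set n : ℝ := ‖1 - b‖ ^ 2 with hn
  have hnpos : 0 < n := by have := norm_pos_iff.2 hne; positivity
  have hn4 : n ≤ 4 := by
    have h1 : ‖1 - b‖ ≤ 2 := (norm_sub_le _ _).trans (by rw [norm_one]; linarith)
    calc n ≤ 2 ^ 2 := pow_le_pow_left₀ (norm_nonneg _) h1 2
      _ = 4 := by norm_num
  have hp4 : ‖1 + b‖ ^ 2 ≤ 4 := by
    have h1 : ‖1 + b‖ ≤ 2 := (norm_add_le _ _).trans (by rw [norm_one]; linarith)
    calc ‖1 + b‖ ^ 2 ≤ 2 ^ 2 := pow_le_pow_left₀ (norm_nonneg _) h1 2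
      _ = 4 := by norm_num
  set K : ℝ := 2 / (1 - r) with hK
  have h1r : 0 < 1 - r := by linarith
  have hKpos : 0 < K := by positivity
  have hcK : ‖c‖ ≤ K := by
    rw [hc, norm_div, hK]
    have h1 : ‖1 + b‖ ≤ 2 := (norm_add_le _ _).trans (by rw [norm_one]; linarith)
    have h2 : 1 - r ≤ ‖1 - b‖ := by
      have := norm_sub_norm_le (1 : ℂ) b
      rw [norm_one] at this
      linarith
    exact div_le_div₀ (by norm_num) h1 h1r h2
  have hcn : n * ‖c‖ ^ 2 = ‖1 + b‖ ^ 2 := by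
    rw [hc, norm_div, div_pow, mul_div_cancel₀ _ hnpos.ne']
  have hcre : n * c.re = 1 - ‖b‖ ^ 2 := by
    have h1 : c.re = (1 - ‖b‖ ^ 2) / n := by
      rw [hc, Complex.div_re, hn, ← Complex.normSq_eq_norm_sq, ← Complex.normSq_eq_norm_sq,
        ← add_div]
      congr 1
      rw [Complex.normSq_apply]
      simp
      ring
    rw [h1, mul_div_cancel₀ _ hnpos.ne']
  set u : ℝ := 2 * δ * c.re - δ ^ 2 * ‖c‖ ^ 2 with hu
  have hX1 : ‖1 - (δ : ℂ) * c‖ ^ 2 = 1 - u := by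
    rw [hu, ← Complex.normSq_eq_norm_sq, ← Complex.normSq_eq_norm_sq, Complex.normSq_apply,
      Complex.normSq_apply]
    simp
    ring
  have hu2 : u ^ 2 ≤ δ ^ 2 * (2 * K + K ^ 2) ^ 2 := by
    have h1 : |u| ≤ δ * (2 * K + K ^ 2) := by
      have h2 : |c.re| ≤ K := (Complex.abs_re_le_norm c).trans hcK
      have h3 : ‖c‖ ^ 2 ≤ K ^ 2 := pow_le_pow_left₀ (norm_nonneg _) hcK 2
      have h4 : 0 ≤ ‖c‖ ^ 2 := by positivity
      have h5 := abs_le.1 h2
      have h6 : δ ^ 2 * ‖c‖ ^ 2 ≤ δ * K ^ 2 := by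
        have h7 : δ ^ 2 ≤ δ := by nlinarith
        exact mul_le_mul h7 h3 h4 hδ.le
      have h8 : 0 ≤ δ ^ 2 * ‖c‖ ^ 2 := by positivity
      have h9 : 0 ≤ δ * K ^ 2 := by positivity
      rw [abs_le]
      constructor <;> nlinarith [mul_le_mul_of_nonneg_left h5.1 hδ.le,
        mul_le_mul_of_nonneg_left h5.2 hδ.le]
    have h2 : u ^ 2 = |u| ^ 2 := (sq_abs u).symm
    rw [h2, ← mul_pow]
    exact pow_le_pow_left₀ (abs_nonneg _) h1 2
  rw [mem_egg, cayInv_zero, cayInv_one]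
  have e1 : ‖2 * (Real.sqrt δ : ℂ) * y 0 / (1 - y 1)‖ ^ 2 = 4 * δ * ‖a‖ ^ 2 / n := by
    rw [norm_div, norm_mul, norm_mul, div_pow, mul_pow, mul_pow, norm_real, Real.norm_eq_abs,
      sq_abs, Real.sq_sqrt hδ.le, Complex.norm_ofNat]
    norm_num
    rfl
  have e2 : (1 - (δ : ℂ) * (1 + y 1) / (1 - y 1)) = 1 - (δ : ℂ) * c := by
    rw [hc, mul_div_assoc]
  rw [e1, e2, show (4 : ℕ) = 2 * 2 from rfl, pow_mul, hX1]
  have key : n * (4 * δ * ‖a‖ ^ 2 / n + (1 - u) ^ 2 - 1) < 0 := by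
    have e3 : n * (4 * δ * ‖a‖ ^ 2 / n + (1 - u) ^ 2 - 1)
        = 4 * δ * ‖a‖ ^ 2 - 2 * (n * u) + n * u ^ 2 := by
      field_simp; ring
    have e4 : n * u = 2 * δ * (1 - ‖b‖ ^ 2) - δ ^ 2 * ‖1 + b‖ ^ 2 := by
      rw [hu, ← hcre, ← hcn]; ring
    rw [e3, e4]
    have h5 : n * u ^ 2 ≤ 4 * (δ ^ 2 * (2 * K + K ^ 2) ^ 2) :=
      mul_le_mul hn4 hu2 (sq_nonneg _) (by norm_num)
    have h6 : δ ^ 2 * ‖1 + b‖ ^ 2 ≤ δ ^ 2 * 4 := mul_le_mul_of_nonneg_left hp4 (by positivity)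
    have h7 : δ * (δ * (2 + (2 * K + K ^ 2) ^ 2)) < δ * (1 - r ^ 2) := mul_lt_mul_of_pos_left hδr hδ
    have h8 : δ * (‖a‖ ^ 2 + ‖b‖ ^ 2) < δ * r ^ 2 := mul_lt_mul_of_pos_left hynorm hδ
    nlinarith
  have h9 : 4 * δ * ‖a‖ ^ 2 / n + (1 - u) ^ 2 - 1 < 0 := by
    by_contra h
    push Not at h
    have := mul_nonneg hnpos.le h
    linarith
  linarith

lemma ball_subset {s r δ : ℝ} (hs : |s| < 1) (hr : r < 1) (hδ : 0 < δ) (hδ1 : δ ≤ 1)
    (hδr : δ * (2 + (2 * (2 / (1 - r)) + (2 / (1 - r)) ^ 2) ^ 2) < 1 - r ^ 2) :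
    Metric.ball (0 : Cn 2) r ⊆ emb s δ '' egg := by
  intro y hy
  rw [mem_ball_zero_iff] at hy
  have h1 := cayInv_mem_egg hr hδ hδ1 hδr hy
  refine ⟨aut (-s) (cayInv δ y), aut_mem_egg (by simpa using hs) h1, ?_⟩
  unfold emb
  rw [aut_aut' hs (norm_lt_one_of_mem_egg h1), cay_cayInv hδ]
  exact ((norm_coord_le y 1).trans_lt hy).trans hr

lemma squeezing_set_le_one {D : Set (Cn 2)} {z : Cn 2} {r : ℝ}
    (hr : r ∈ {r : ℝ | 0 < r ∧ ∃ F : Cn 2 → Cn 2, IsHolomorphicEmbedding F D ∧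
      Set.MapsTo F D (Metric.ball 0 1) ∧ F z = 0 ∧ Metric.ball 0 r ⊆ F '' D}) : r ≤ 1 := by
  obtain ⟨h0, F, h1, h2, h3, h4⟩ := hr
  by_contra h
  push Not at h
  have hp : pt ∈ Metric.ball (0 : Cn 2) r := by
    rw [mem_ball_zero_iff]
    have : ‖pt‖ = 1 := by simp [pt, EuclideanSpace.norm_eq, Fin.sum_univ_two]
    rw [this]; exact h
  obtain ⟨x, hx, hxp⟩ := h4 hp
  have h5 := h2 hx
  rw [hxp, mem_ball_zero_iff] at h5
  have : ‖pt‖ = 1 := by simp [pt, EuclideanSpace.norm_eq, Fin.sum_univ_two]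
  rw [this] at h5
  exact lt_irrefl _ h5

lemma squeezing_le_one (D : Set (Cn 2)) (z : Cn 2) : squeezing D z ≤ 1 :=
  Real.sSup_le (fun _ hr => squeezing_set_le_one hr) zero_le_one

lemma le_squeezing {s r δ : ℝ} (hs : |s| < 1) (hr0 : 0 < r) (hr : r < 1) (hδ : 0 < δ) (hδ1 : δ ≤ 1)
    (hδr : δ * (2 + (2 * (2 / (1 - r)) + (2 / (1 - r)) ^ 2) ^ 2) < 1 - r ^ 2) :
    r ≤ squeezing egg (base s δ) := by
  refine le_csSup ⟨1, fun _ h => squeezing_set_le_one h⟩ ?_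
  exact ⟨hr0, emb s δ, isHolomorphicEmbedding_emb hs hδ,
    fun x hx => cay_mem_ball hδ (aut_mem_egg hs hx), emb_base hs, ball_subset hs hr hδ hδ1 hδr⟩

/-- The sequence `δ_ν`. -/
noncomputable def del (ν : ℕ) : ℝ := 1 / ((ν : ℝ) + 2)

lemma del_pos (ν : ℕ) : 0 < del ν := by unfold del; positivity

lemma del_le (ν : ℕ) : del ν ≤ 1 / 2 := by
  unfold del
  apply one_div_le_one_div_of_le (by norm_num)
  have : (0 : ℝ) ≤ ν := Nat.cast_nonneg ν
  linarith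

lemma tendsto_del : Tendsto del atTop (𝓝 0) := by
  unfold del
  have h := tendsto_one_div_add_atTop_nhds_zero_nat (𝕜 := ℝ)
  have h2 := h.comp (tendsto_add_atTop_nat 1)
  refine h2.congr fun ν => ?_
  simp only [Function.comp_apply]
  push_cast
  ring

/-- The sequence `z_ν`. -/
noncomputable def seq (ν : ℕ) : Cn 2 := base (1 - del ν) (del ν)

lemma abs_one_sub_del (ν : ℕ) : |1 - del ν| < 1 := by
  have h1 := del_pos ν
  have h2 := del_le ν
  rw [abs_lt]; constructor <;> linarith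

lemma seq_mem_egg (ν : ℕ) : seq ν ∈ egg :=
  base_mem_egg (abs_one_sub_del ν) (del_pos ν) (by have := del_le ν; linarith)

lemma tendsto_squeezing_seq : Tendsto (fun ν => squeezing egg (seq ν)) atTop (𝓝 1) := by
  rw [tendsto_order]
  refine ⟨fun a ha => ?_, fun a ha => Eventually.of_forall fun ν =>
    (squeezing_le_one _ _).trans_lt ha⟩
  obtain ⟨r, hr1, hr2⟩ := exists_between (max_lt ha (zero_lt_one (α := ℝ)))
  have hra : a < r := (le_max_left _ _).trans_lt hr1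
  have hr0 : 0 < r := (le_max_right _ _).trans_lt hr1
  have h1 : Tendsto (fun ν => del ν * (2 + (2 * (2 / (1 - r)) + (2 / (1 - r)) ^ 2) ^ 2)) atTop
      (𝓝 (0 * (2 + (2 * (2 / (1 - r)) + (2 / (1 - r)) ^ 2) ^ 2))) := tendsto_del.mul_const _
  rw [zero_mul] at h1
  have h2 : (0 : ℝ) < 1 - r ^ 2 := by nlinarith
  filter_upwards [h1.eventually_lt_const h2] with ν hν
  exact hra.trans_le (le_squeezing (abs_one_sub_del ν) hr0 hr2 (del_pos ν)
    (by have := del_le ν; linarith) hν)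

lemma tendsto_seq : Tendsto seq atTop (𝓝 pt) := by
  have h0 : ∀ ν, seq ν = !₂[((1 - del ν : ℝ) : ℂ),
      fac (-(1 - del ν)) 0 * ((1 - del ν : ℝ) : ℂ)] := by
    intro ν
    unfold seq base aut
    simp
  have hs : Tendsto (fun ν => 1 - del ν) atTop (𝓝 1) := by
    simpa using tendsto_del.const_sub 1
  have hfac : Tendsto (fun ν => fac (-(1 - del ν)) 0) atTop (𝓝 0) := by
    rw [tendsto_zero_iff_norm_tendsto_zero]
    have h1 : ∀ ν, ‖fac (-(1 - del ν)) 0‖ ^ 4 = 1 - (1 - del ν) ^ 2 := by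
      intro ν
      have := norm_fac (s := -(1 - del ν)) (by rw [abs_neg]; exact abs_one_sub_del ν) (z := 0)
        (by simp)
      rw [this, neg_sq]; simp
    have h2 : Tendsto (fun ν => ‖fac (-(1 - del ν)) 0‖ ^ 4) atTop (𝓝 0) := by
      simp only [h1]
      have := (hs.pow 2).const_sub 1
      simpa using this
    have h3 : ∀ ν, ‖fac (-(1 - del ν)) 0‖
        = Real.sqrt (Real.sqrt (‖fac (-(1 - del ν)) 0‖ ^ 4)) := by
      intro ν
      rw [show ‖fac (-(1 - del ν)) 0‖ ^ 4 = (‖fac (-(1 - del ν)) 0‖ ^ 2) ^ 2 by ring,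
        Real.sqrt_sq (by positivity), Real.sqrt_sq (norm_nonneg _)]
    have h4 : Tendsto (fun ν => Real.sqrt (Real.sqrt (‖fac (-(1 - del ν)) 0‖ ^ 4))) atTop
        (𝓝 (Real.sqrt (Real.sqrt 0))) :=
      (Real.continuous_sqrt.tendsto _).comp ((Real.continuous_sqrt.tendsto _).comp h2)
    simp only [Real.sqrt_zero] at h4
    exact h4.congr fun ν => (h3 ν).symm
  have hs' : Tendsto (fun ν => ((1 - del ν : ℝ) : ℂ)) atTop (𝓝 ((1 : ℝ) : ℂ)) :=
    (Complex.continuous_ofReal.tendsto _).comp hs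
  have h5 : Tendsto (fun ν => ((1 - del ν : ℝ) : ℂ) • e1
      + (fac (-(1 - del ν)) 0 * ((1 - del ν : ℝ) : ℂ)) • e2) atTop
      (𝓝 (((1 : ℝ) : ℂ) • e1 + ((0 : ℂ) * ((1 : ℝ) : ℂ)) • e2)) :=
    (hs'.smul_const _).add ((hfac.mul hs').smul_const _)
  have h6 : ((1 : ℝ) : ℂ) • e1 + ((0 : ℂ) * ((1 : ℝ) : ℂ)) • e2 = pt := by
    ext i; fin_cases i <;> simp [e1, e2, pt]
  rw [h6] at h5
  refine h5.congr fun ν => ?_
  rw [h0]
  ext i; fin_cases i <;> simp [e1, e2]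

/-- The egg and its boundary point `(1,0)` answer the question: `(D, p)` satisfies (A), (B) and (C),
`p` is not strongly pseudoconvex, and the squeezing function tends to `1` along a sequence
converging to `p`. -/
theorem result : ∃ (D : Set (Cn 2)) (p : Cn 2),
    (IsBoundedDomainWithBoundaryPoint D p ∧ CaseA D p ∧ CaseB D p ∧ CaseC D p) ∧
    IsAdmissible D p ∧
    ¬ IsStronglyPseudoconvexAt D p ∧
    ∃ z : ℕ → Cn 2, (∀ ν, z ν ∈ D) ∧ Tendsto z atTop (𝓝 p) ∧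
      Tendsto (fun ν => squeezing D (z ν)) atTop (𝓝 1) := by
  have hdom : IsBoundedDomainWithBoundaryPoint egg pt :=
    ⟨isOpen_egg, ⟨⟨0, zero_mem_egg⟩, convex_egg.isPreconnected⟩, isBounded_egg, pt_mem_frontier⟩
  have hfin : ∀ᶠ q in 𝓝 pt, q ∈ frontier egg → IsFiniteType egg q :=
    Eventually.of_forall fun q hq => isFiniteType_egg hq
  have hA : CaseA egg pt :=
    ⟨rfl, isLeviPseudoconvexNear_egg (ne_zero_of_mem_frontier pt_mem_frontier), isFiniteType_egg pt_mem_frontier⟩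
  have hB : CaseB egg pt :=
    ⟨le_rfl, isLeviPseudoconvexNear_egg (ne_zero_of_mem_frontier pt_mem_frontier), hfin,
      hasPositiveLeviEigenvalues_zero (ne_zero_of_mem_frontier pt_mem_frontier)⟩
  have hC : CaseC egg pt := ⟨le_rfl, convex_egg, hfin⟩
  exact ⟨egg, pt, ⟨hdom, hA, hB, hC⟩, ⟨hdom, Or.inl hA⟩, not_isStronglyPseudoconvexAt_pt, seq,
    seq_mem_egg, tendsto_seq, tendsto_squeezing_seq⟩

end Pool.Agent.Results.MP_63facb_an.EggSqueezing
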